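import Pool.Agent.Y837.SW.Bound

/-! # The number of the points of `v ^ a = g(u)`, `a` and the degree of `g` coprime (helper260) -/

set_option autoImplicit false

namespace Pool.Agent.H260.SE

open Polynomial Finset

section

variable {p : ℕ} [hp : Fact p.Prime]

open Classical in
theorem char_card (k : ℕ) (hk : 0 < k) :
    (univ.filter (fun χ : DirichletCharacter ℂ p => χ ^ k = 1)).card ≤ k := by
  obtain ⟨g, hg⟩ := IsCyclic.exists_generator (α := (ZMod p)ˣ)
  have h1 : (univ.filter (fun χ : DirichletCharacter ℂ p => χ ^ k = 1)).card ≤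
      (Polynomial.nthRoots k (1 : ℂ)).toFinset.card := by
    apply Finset.card_le_card_of_injOn (fun χ => χ (g : ZMod p))
    · intro χ hχ
      rw [Finset.mem_coe, mem_filter] at hχ
      rw [Finset.mem_coe, Multiset.mem_toFinset, Polynomial.mem_nthRoots hk, ← MulChar.pow_apply_coe, hχ.2,
        MulChar.one_apply_coe]
    · intro χ _ ψ _ h
      exact (MulChar.eq_iff hg χ ψ).2 h
  refine h1.trans ((Multiset.toFinset_card_le _).trans ?_)
  exact Polynomial.card_nthRoots k 1

/-- the sum of a character over the inverses of the `a`-th powers -/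
theorem sum_pow_inv (a : ℕ) (ha : a ≠ 0) (χ : DirichletCharacter ℂ p) :
    ∑ v : ZMod p, χ ((v ^ a)⁻¹) = if χ ^ a = 1 then ((p : ℂ) - 1) else 0 := by
  have h1 : ∑ v : ZMod p, χ ((v ^ a)⁻¹) = ∑ v : ZMod p, (χ ^ a) v := by
    rw [← Equiv.sum_comp (Equiv.inv (ZMod p)) (fun v => (χ ^ a) v)]
    refine Finset.sum_congr rfl fun v _ => ?_
    rw [Equiv.inv_apply, MulChar.pow_apply' χ ha, ← map_pow, inv_pow]
  rw [h1]
  split_ifs with h
  · rw [h, MulChar.sum_one_eq_card_units, ZMod.card_units_eq_totient, Nat.totient_prime hp.out,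
      Nat.cast_sub hp.out.one_lt.le, Nat.cast_one]
  · exact MulChar.sum_eq_zero_of_ne_one h

open Classical in
/-- the number of points by characters -/
theorem count_eq (a : ℕ) (ha : a ≠ 0) (g : ZMod p → ZMod p) :
    ((Finset.univ.filter (fun z : ZMod p × ZMod p => z.2 ^ a = g z.1)).card : ℂ) =
      p + ∑ χ ∈ (univ.filter (fun χ : DirichletCharacter ℂ p => χ ^ a = 1)).erase 1,
        ∑ u : ZMod p, χ (g u) := by
  have hp1 : ((p : ℂ) - 1) ≠ 0 := by
    have h1 : (1 : ℝ) < p := by exact_mod_cast hp.out.one_lt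
    have h2 : ((p : ℝ) - 1) ≠ 0 := by linarith
    intro h
    apply h2
    have h3 : (((p : ℝ) - 1 : ℝ) : ℂ) = 0 := by push_cast; exact h
    exact_mod_cast h3
  -- the nonzero points
  have hA : ∑ χ : DirichletCharacter ℂ p, (∑ u : ZMod p, χ (g u)) * (∑ v : ZMod p, χ ((v ^ a)⁻¹)) =
      ((p : ℂ) - 1) *
        ((univ.filter (fun z : ZMod p × ZMod p => z.2 ≠ 0 ∧ z.2 ^ a = g z.1)).card : ℂ) := by
    have h1 : ∀ χ : DirichletCharacter ℂ p,
        (∑ u : ZMod p, χ (g u)) * (∑ v : ZMod p, χ ((v ^ a)⁻¹)) =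
          ∑ z : ZMod p × ZMod p, χ ((z.2 ^ a)⁻¹) * χ (g z.1) := by
      intro χ
      rw [Finset.sum_mul_sum, ← Finset.univ_product_univ, Finset.sum_product]
      refine Finset.sum_congr rfl fun u _ => Finset.sum_congr rfl fun v _ => mul_comm _ _
    simp_rw [h1]
    rw [Finset.sum_comm]
    have h2 : ∀ z : ZMod p × ZMod p,
        ∑ χ : DirichletCharacter ℂ p, χ ((z.2 ^ a)⁻¹) * χ (g z.1) =
          if z.2 ≠ 0 ∧ z.2 ^ a = g z.1 then ((p : ℂ) - 1) else 0 := by
      intro z
      by_cases hz : z.2 = 0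
      · rw [if_neg (fun h => h.1 hz)]
        refine Finset.sum_eq_zero fun χ _ => ?_
        rw [hz, zero_pow ha, inv_zero, MulChar.map_zero, zero_mul]
      · rw [DirichletCharacter.sum_char_inv_mul_char_eq ℂ (isUnit_iff_ne_zero.2 (pow_ne_zero a hz))]
        have h4 : ((p.totient : ℕ) : ℂ) = (p : ℂ) - 1 := by
          rw [Nat.totient_prime hp.out, Nat.cast_sub hp.out.one_lt.le, Nat.cast_one]
        rw [h4]
        by_cases h5 : z.2 ^ a = g z.1
        · rw [if_pos h5, if_pos ⟨hz, h5⟩]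
        · rw [if_neg h5, if_neg (fun h => h5 h.2)]
    simp_rw [h2]
    rw [← Finset.sum_filter, Finset.sum_const, nsmul_eq_mul, mul_comm]
  have hB : ∑ χ : DirichletCharacter ℂ p, (∑ u : ZMod p, χ (g u)) * (∑ v : ZMod p, χ ((v ^ a)⁻¹)) =
      ((p : ℂ) - 1) * ∑ χ ∈ univ.filter (fun χ : DirichletCharacter ℂ p => χ ^ a = 1),
        ∑ u : ZMod p, χ (g u) := by
    rw [Finset.mul_sum, Finset.sum_filter]
    refine Finset.sum_congr rfl fun χ _ => ?_
    rw [sum_pow_inv a ha χ]
    split_ifs with h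
    · rw [mul_comm]
    · rw [mul_zero]
  have hC : ((univ.filter (fun z : ZMod p × ZMod p => z.2 ≠ 0 ∧ z.2 ^ a = g z.1)).card : ℂ) =
      ∑ χ ∈ univ.filter (fun χ : DirichletCharacter ℂ p => χ ^ a = 1), ∑ u : ZMod p, χ (g u) :=
    mul_left_cancel₀ hp1 (hA.symm.trans hB)
  -- the principal character
  have hmem : (1 : DirichletCharacter ℂ p) ∈ univ.filter (fun χ : DirichletCharacter ℂ p => χ ^ a = 1) := by
    rw [mem_filter]
    exact ⟨mem_univ _, one_pow a⟩
  have hprin : ∑ u : ZMod p, (1 : DirichletCharacter ℂ p) (g u) =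
      (p : ℂ) - ((univ.filter (fun u : ZMod p => g u = 0)).card : ℂ) := by
    have h3 : ∀ u : ZMod p, (1 : DirichletCharacter ℂ p) (g u) =
        1 - (if g u = 0 then (1 : ℂ) else 0) := by
      intro u
      by_cases h4 : g u = 0
      · rw [if_pos h4, h4, sub_self, MulChar.map_zero]
      · rw [if_neg h4, sub_zero]
        exact MulChar.one_apply (isUnit_iff_ne_zero.2 h4)
    simp_rw [h3]
    rw [Finset.sum_sub_distrib, Finset.sum_const, card_univ, ZMod.card, Finset.sum_boole,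
      nsmul_eq_mul, mul_one]
  -- the points with second coordinate zero
  have hz : (univ.filter (fun z : ZMod p × ZMod p => z.2 ^ a = g z.1)).card =
      (univ.filter (fun z : ZMod p × ZMod p => z.2 ≠ 0 ∧ z.2 ^ a = g z.1)).card +
        (univ.filter (fun u : ZMod p => g u = 0)).card := by
    have h1 : univ.filter (fun z : ZMod p × ZMod p => z.2 ^ a = g z.1) =
        univ.filter (fun z : ZMod p × ZMod p => z.2 ≠ 0 ∧ z.2 ^ a = g z.1) ∪
          (univ.filter (fun u : ZMod p => g u = 0)).image (fun u => (u, (0 : ZMod p))) := by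
      ext ⟨u, v⟩
      simp only [mem_filter, mem_univ, true_and, mem_union, mem_image, Prod.mk.injEq]
      constructor
      · intro h
        by_cases hv : v = 0
        · right
          refine ⟨u, ?_, rfl, hv.symm⟩
          rw [← h, hv, zero_pow ha]
        · left
          exact ⟨hv, h⟩
      · rintro (⟨-, h⟩ | ⟨u', h, rfl, rfl⟩)
        · exact h
        · rw [h, zero_pow ha]
    rw [h1, Finset.card_union_of_disjoint]
    · congr 1
      exact Finset.card_image_of_injective _ (fun u u' h => (Prod.mk.inj h).1)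
    · rw [Finset.disjoint_left]
      rintro ⟨u, v⟩ h h'
      simp only [mem_filter, mem_univ, true_and, mem_image, Prod.mk.injEq] at h h'
      obtain ⟨u', -, -, h2⟩ := h'
      exact h.1 h2.symm
  rw [hz, Nat.cast_add, hC, ← Finset.add_sum_erase _ _ hmem, hprin]
  ring

end

open Classical in
/-- **The number of points** -/
theorem count_bound (a D : ℕ) (ha : a ≠ 0) : ∃ K : ℝ, 0 ≤ K ∧ ∀ p : ℕ, ∀ _ : Fact p.Prime,
    ∀ g : (ZMod p)[X], g.natDegree ≤ D → 1 ≤ g.natDegree → Nat.Coprime a g.natDegree →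
      |((univ.filter (fun z : ZMod p × ZMod p => z.2 ^ a = g.eval z.1)).card : ℝ) - p| ≤
        K * Real.sqrt p := by
  have hw : ∀ t : ℕ, ∃ K : ℝ, 0 ≤ K ∧ (2 ≤ t → ∀ (E : Type) [Field E] [Fintype E],
      t ∣ Fintype.card E - 1 → ∀ ψ : MulChar E ℂ, ψ ≠ 1 → ψ ^ t = 1 → ∀ f : E[X],
      f.natDegree ≤ D → f ≠ 0 → Pool.Agent.Y837.SW.NP t f →
      ‖∑ x : E, ψ (f.eval x)‖ ≤ K * Real.sqrt (Fintype.card E)) := by
    intro t
    by_cases ht : 2 ≤ t
    · obtain ⟨K, hK, h⟩ := Pool.Agent.Y837.SW.wele t D ht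
      exact ⟨K, hK, fun _ => h⟩
    · exact ⟨0, le_rfl, fun h => absurd h ht⟩
  choose K hK hw using hw
  refine ⟨a * ∑ t ∈ range (a + 1), K t, mul_nonneg (Nat.cast_nonneg _)
    (Finset.sum_nonneg fun t _ => hK t), ?_⟩
  intro p hp g hgD hg1 hcop
  have hg0 : g ≠ 0 := by
    rintro rfl
    simp at hg1
  have h1 := count_eq (p := p) a ha (fun u => g.eval u)
  have h2 : ((((univ.filter (fun z : ZMod p × ZMod p => z.2 ^ a = g.eval z.1)).card : ℝ) - p : ℝ) : ℂ) =
      ∑ χ ∈ (univ.filter (fun χ : DirichletCharacter ℂ p => χ ^ a = 1)).erase 1,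
        ∑ u : ZMod p, χ (g.eval u) := by
    push_cast
    rw [h1]
    ring
  rw [← Real.norm_eq_abs, ← Complex.norm_real, h2]
  have h3 : ∀ χ ∈ (univ.filter (fun χ : DirichletCharacter ℂ p => χ ^ a = 1)).erase 1,
      ‖∑ u : ZMod p, χ (g.eval u)‖ ≤ (∑ t ∈ range (a + 1), K t) * Real.sqrt p := by
    intro χ hχ
    rw [mem_erase, mem_filter] at hχ
    obtain ⟨hχ1, -, hχa⟩ := hχ
    obtain ⟨t, ht⟩ : ∃ t, t = Nat.gcd a (p - 1) := ⟨_, rfl⟩
    have h5 : χ ^ (p - 1) = 1 := by
      have := χ.pow_card_eq_one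
      rwa [ZMod.card_units] at this
    have h6 : χ ^ t = 1 := by
      rw [ht]
      exact pow_gcd_eq_one.2 ⟨hχa, h5⟩
    have ht0 : 0 < t := by rw [ht]; exact Nat.gcd_pos_of_pos_left _ (Nat.pos_of_ne_zero ha)
    have ht2 : 2 ≤ t := by
      by_contra h7
      have h8 : t = 1 := by omega
      rw [h8, pow_one] at h6
      exact hχ1 h6
    have hta : t ≤ a := by rw [ht]; exact Nat.gcd_le_left _ (Nat.pos_of_ne_zero ha)
    have hNP : Pool.Agent.Y837.SW.NP t g := by
      intro e he he1 c h hgh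
      have hc : c ≠ 0 := by
        rintro rfl
        rw [C_0, zero_mul] at hgh
        exact hg0 hgh
      have h7 : g.natDegree = e * h.natDegree := by
        rw [hgh, natDegree_C_mul hc, natDegree_pow]
      have h8 : e ∣ a := he.trans (by rw [ht]; exact Nat.gcd_dvd_left _ _)
      have h9 : e ∣ Nat.gcd a g.natDegree := Nat.dvd_gcd h8 ⟨_, h7⟩
      rw [hcop] at h9
      have := Nat.dvd_one.1 h9
      omega
    have h7 := hw t ht2 (ZMod p) (by rw [ZMod.card, ht]; exact Nat.gcd_dvd_right _ _) χ hχ1 h6 g hgD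
      hg0 hNP
    rw [ZMod.card] at h7
    refine h7.trans (mul_le_mul_of_nonneg_right ?_ (Real.sqrt_nonneg _))
    exact Finset.single_le_sum (f := K) (fun t _ => hK t) (mem_range.2 (by omega))
  refine (norm_sum_le _ _).trans ((Finset.sum_le_sum h3).trans ?_)
  rw [Finset.sum_const, nsmul_eq_mul, mul_assoc]
  refine mul_le_mul_of_nonneg_right ?_ (mul_nonneg (Finset.sum_nonneg fun t _ => hK t)
    (Real.sqrt_nonneg _))
  have h4 : ((univ.filter (fun χ : DirichletCharacter ℂ p => χ ^ a = 1)).erase 1).card ≤ a :=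
    (Finset.card_le_card (Finset.erase_subset _ _)).trans (char_card a (Nat.pos_of_ne_zero ha))
  exact_mod_cast h4

end Pool.Agent.H260.SE
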