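import Mathlib

/-! # Common points of two curves `α v ^ a + Q(u) = r` (helper260) -/

set_option autoImplicit false

namespace Pool.Agent.H260.SE

open Polynomial Finset

theorem pair_field {K : Type} [Field K] [DecidableEq K] (α : K) (hα : α ≠ 0) (a : ℕ) (ha : a ≠ 0)
    (P H : K[X]) (hH : H ≠ 0) (S : Finset (K × K))
    (hS : ∀ z ∈ S, H.eval z.1 = 0 ∧ α * z.2 ^ a = P.eval z.1) : S.card ≤ H.natDegree * a := by
  have h1 : (S.image Prod.fst).card ≤ H.natDegree := by
    have h2 : S.image Prod.fst ⊆ H.roots.toFinset := by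
      intro u hu
      rw [mem_image] at hu
      obtain ⟨z, hz, rfl⟩ := hu
      rw [Multiset.mem_toFinset, mem_roots hH]
      exact (hS z hz).1
    exact (Finset.card_le_card h2).trans ((Multiset.toFinset_card_le _).trans (card_roots' H))
  have h3 := Finset.card_le_mul_card_image (f := Prod.fst) S a (fun u hu => by
    have hT0 : (C α * X ^ a - C (P.eval u) : K[X]) ≠ 0 := by
      intro h0
      have h4 := congrArg (fun q => coeff q a) h0
      simp only [coeff_sub, coeff_C_mul, coeff_X_pow, if_true, mul_one, coeff_C, if_neg ha, sub_zero,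
        coeff_zero] at h4
      exact hα h4
    have h5 : (S.filter fun z => z.1 = u).card ≤ (C α * X ^ a - C (P.eval u) : K[X]).roots.toFinset.card := by
      apply Finset.card_le_card_of_injOn (fun z => z.2)
      · intro z hz
        rw [Finset.mem_coe, mem_filter] at hz
        rw [Finset.mem_coe, Multiset.mem_toFinset, mem_roots hT0, IsRoot.def, eval_sub, eval_mul, eval_C,
          eval_pow, eval_X, eval_C, (hS z hz.1).2, hz.2, sub_self]
      · intro z hz z' hz' h
        rw [Finset.mem_coe, mem_filter] at hz hz'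
        exact Prod.ext (hz.2.trans hz'.2.symm) h
    refine h5.trans ((Multiset.toFinset_card_le _).trans ((card_roots' _).trans ?_))
    refine (natDegree_sub_le _ _).trans (max_le ?_ (by rw [natDegree_C]; exact Nat.zero_le _))
    exact natDegree_C_mul_X_pow_le α a)
  rw [mul_comm]
  exact h3.trans (Nat.mul_le_mul_left _ h1)

theorem natDegree_C_sub' {K : Type} [Field K] (r : K) (P : K[X]) : (C r - P).natDegree = P.natDegree := by
  rw [← natDegree_neg, neg_sub, natDegree_sub_C]

theorem natDegree_red {p : ℕ} (hp : p.Prime) (Q : ℤ[X]) (hQ : Q.leadingCoeff.natAbs < p)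
    (hQ1 : 1 ≤ Q.natDegree) : (Q.map (Int.castRingHom (ZMod p))).natDegree = Q.natDegree := by
  have _ : Fact p.Prime := ⟨hp⟩
  apply natDegree_map_of_leadingCoeff_ne_zero
  intro h0
  have h1 := (ZMod.intCast_zmod_eq_zero_iff_dvd Q.leadingCoeff p).1 h0
  have h2 := Int.natAbs_dvd_natAbs.2 h1
  rw [Int.natAbs_natCast] at h2
  have hQ0 : Q ≠ 0 := by
    rintro rfl
    simp at hQ1
  have h3 := Nat.le_of_dvd (Int.natAbs_pos.2 (leadingCoeff_ne_zero.2 hQ0)) h2
  omega

theorem cast_ne {p : ℕ} (hp : p.Prime) (c : ℤ) (hc : c ≠ 0) (h : c.natAbs < p) : (c : ZMod p) ≠ 0 := by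
  intro h0
  have h1 := (ZMod.intCast_zmod_eq_zero_iff_dvd c p).1 h0
  have h2 := Int.natAbs_dvd_natAbs.2 h1
  rw [Int.natAbs_natCast] at h2
  have h3 := Nat.le_of_dvd (Int.natAbs_pos.2 hc) h2
  omega

open Classical in
/-- **Two of the polynomials have boundedly many common points modulo `p`.** -/
theorem pair_bound (α α' : ℤ) (a a' : ℕ) (Q Q' : ℤ[X]) (hα : α ≠ 0) (hα' : α' ≠ 0) (ha : a ≠ 0)
    (ha' : a' ≠ 0) (hQ : 1 ≤ Q.natDegree) (hQ' : 1 ≤ Q'.natDegree) (hc : Nat.Coprime a Q.natDegree)
    (hc' : Nat.Coprime a' Q'.natDegree)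
    (hne : a = a' → ∀ c : ℤ, C α' * Q - C α * Q' ≠ C c) :
    ∃ B D : ℕ, ∀ p : ℕ, ∀ _ : Fact p.Prime, B < p → ∀ r s : ZMod p,
      (univ.filter (fun z : ZMod p × ZMod p =>
        (α : ZMod p) * z.2 ^ a + (Q.map (Int.castRingHom (ZMod p))).eval z.1 = r ∧
        (α' : ZMod p) * z.2 ^ a' + (Q'.map (Int.castRingHom (ZMod p))).eval z.1 = s)).card ≤ D := by
  by_cases haa : a = a'
  · subst haa
    have h1 : ∃ n : ℕ, n ≠ 0 ∧ coeff (C α' * Q - C α * Q') n ≠ 0 := by
      by_contra hcon
      push Not at hcon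
      apply hne rfl (coeff (C α' * Q - C α * Q') 0)
      ext n
      by_cases hn : n = 0
      · subst hn; simp
      · rw [hcon n hn, coeff_C, if_neg hn]
    obtain ⟨n, hn, hcn⟩ := h1
    refine ⟨α.natAbs + (coeff (C α' * Q - C α * Q') n).natAbs, (Q.natDegree + Q'.natDegree) * a,
      fun p hF hB r s => ?_⟩
    have hp : p.Prime := hF.out
    obtain ⟨P, hP⟩ : ∃ P, P = Q.map (Int.castRingHom (ZMod p)) := ⟨_, rfl⟩
    obtain ⟨P', hP'⟩ : ∃ P', P' = Q'.map (Int.castRingHom (ZMod p)) := ⟨_, rfl⟩
    have hH : (C (α' : ZMod p) * (P - C r) - C (α : ZMod p) * (P' - C s)) ≠ 0 := by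
      intro h0
      have h2 := congrArg (fun q => coeff q n) h0
      simp only [coeff_sub, coeff_C_mul, coeff_C, if_neg hn, sub_zero, coeff_zero, hP, hP', coeff_map] at h2
      apply cast_ne hp _ hcn (by omega)
      rw [coeff_sub, coeff_C_mul, coeff_C_mul]
      push_cast
      simpa using h2
    rw [← hP, ← hP']
    refine (pair_field (α : ZMod p) (cast_ne hp α hα (by omega)) a ha (C r - P) _ hH _ ?_).trans ?_
    · rintro ⟨u, v⟩ hz
      simp only [mem_filter, mem_univ, true_and] at hz
      obtain ⟨h2, h3⟩ := hz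
      constructor
      · simp only [eval_sub, eval_mul, eval_C]
        rw [← h2, ← h3]
        ring
      · simp only [eval_sub, eval_C]
        rw [← h2]
        ring
    · refine Nat.mul_le_mul_right _ ?_
      refine (natDegree_sub_le _ _).trans (max_le ?_ ?_)
      · refine (natDegree_C_mul_le _ _).trans ?_
        rw [natDegree_sub_C, hP]
        exact natDegree_map_le.trans (Nat.le_add_right _ _)
      · refine (natDegree_C_mul_le _ _).trans ?_
        rw [natDegree_sub_C, hP']
        exact natDegree_map_le.trans (Nat.le_add_left _ _)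
  · refine ⟨α.natAbs + α'.natAbs + Q.leadingCoeff.natAbs + Q'.leadingCoeff.natAbs,
      (a' * Q.natDegree + a * Q'.natDegree) * a, fun p hF hB r s => ?_⟩
    have hp : p.Prime := hF.out
    obtain ⟨P, hP⟩ : ∃ P, P = Q.map (Int.castRingHom (ZMod p)) := ⟨_, rfl⟩
    obtain ⟨P', hP'⟩ : ∃ P', P' = Q'.map (Int.castRingHom (ZMod p)) := ⟨_, rfl⟩
    have hd : P.natDegree = Q.natDegree := by rw [hP]; exact natDegree_red hp Q (by omega) hQ
    have hd' : P'.natDegree = Q'.natDegree := by rw [hP']; exact natDegree_red hp Q' (by omega) hQ'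
    have hα0 := cast_ne hp α hα (by omega)
    have hα0' := cast_ne hp α' hα' (by omega)
    have d1 : (C ((α' : ZMod p) ^ a) * (C r - P) ^ a').natDegree = a' * Q.natDegree := by
      rw [natDegree_C_mul (pow_ne_zero _ hα0'), natDegree_pow, natDegree_C_sub', hd]
    have d2 : (C ((α : ZMod p) ^ a') * (C s - P') ^ a).natDegree = a * Q'.natDegree := by
      rw [natDegree_C_mul (pow_ne_zero _ hα0), natDegree_pow, natDegree_C_sub', hd']
    have hH : (C ((α' : ZMod p) ^ a) * (C r - P) ^ a' - C ((α : ZMod p) ^ a') * (C s - P') ^ a) ≠ 0 := by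
      intro h0
      have h1 := sub_eq_zero.1 h0
      rw [h1] at d1
      have h2 : a * Q'.natDegree = a' * Q.natDegree := d2.symm.trans d1
      have h3 : a ∣ a' := hc.dvd_of_dvd_mul_right ⟨_, h2.symm⟩
      have h4 : a' ∣ a := hc'.dvd_of_dvd_mul_right ⟨_, h2⟩
      exact haa (Nat.dvd_antisymm h3 h4)
    rw [← hP, ← hP']
    refine (pair_field (α : ZMod p) hα0 a ha (C r - P) _ hH _ ?_).trans ?_
    · rintro ⟨u, v⟩ hz
      simp only [mem_filter, mem_univ, true_and] at hz
      obtain ⟨h2, h3⟩ := hz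
      have h4 : (α : ZMod p) * v ^ a = r - P.eval u := by rw [← h2]; ring
      have h5 : (α' : ZMod p) * v ^ a' = s - P'.eval u := by rw [← h3]; ring
      constructor
      · simp only [eval_sub, eval_mul, eval_C, eval_pow]
        rw [← h4, ← h5]
        ring
      · simp only [eval_sub, eval_C]
        exact h4
    · refine Nat.mul_le_mul_right _ ?_
      refine (natDegree_sub_le _ _).trans (max_le ?_ ?_)
      · rw [d1]; exact Nat.le_add_right _ _
      · rw [d2]; exact Nat.le_add_left _ _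

end Pool.Agent.H260.SE
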