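import Pool.Agent.H260.SE.Count
import Pool.Agent.H260.SE.Pair
import Pool.Agent.Y837.SV.Crit3

/-! # Record neighbourhoods of the polynomials `α y ^ a + Q(x)` (helper260) -/

set_option autoImplicit false

namespace Pool.Agent.H260.SE

open Finset
open Pool.Agent.H256R2.SC (ff)

/-- `α y ^ a + Q(x)` -/
noncomputable def FF (α : ℤ) (a : ℕ) (Q : Polynomial ℤ) : MvPolynomial (Fin 2) ℤ :=
  MvPolynomial.C α * MvPolynomial.X 1 ^ a +
    Polynomial.aeval (MvPolynomial.X 0 : MvPolynomial (Fin 2) ℤ) Q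

theorem aeval_FF (α : ℤ) (a : ℕ) (Q : Polynomial ℤ) {p : ℕ} (x : Fin 2 → ZMod p) :
    MvPolynomial.aeval x (FF α a Q) =
      (α : ZMod p) * x 1 ^ a + (Q.map (Int.castRingHom (ZMod p))).eval (x 0) := by
  unfold FF
  rw [map_add, map_mul, map_pow, MvPolynomial.aeval_C, MvPolynomial.aeval_X,
    ← Polynomial.aeval_algHom_apply, MvPolynomial.aeval_X, Polynomial.aeval_def,
    Polynomial.eval₂_eq_eval_map]
  rfl

theorem eval_FF (α : ℤ) (a : ℕ) (Q : Polynomial ℤ) (x : Fin 2 → ℤ) :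
    MvPolynomial.eval x (FF α a Q) = α * x 1 ^ a + Q.eval (x 0) := by
  unfold FF
  rw [map_add, map_mul, map_pow, MvPolynomial.eval_C, MvPolynomial.eval_X, Polynomial.aeval_def,
    Polynomial.hom_eval₂, MvPolynomial.eval_X]
  have h : (MvPolynomial.eval x).comp (algebraMap ℤ (MvPolynomial (Fin 2) ℤ)) = RingHom.id ℤ :=
    RingHom.ext_int _ _
  rw [h, Polynomial.eval₂_id]

theorem main {m : ℕ} (α : Fin m → ℤ) (a : Fin m → ℕ) (Q : Fin m → Polynomial ℤ)
    (hα : ∀ j, α j ≠ 0) (ha : ∀ j, a j ≠ 0) (hQ : ∀ j, 1 ≤ (Q j).natDegree)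
    (hc : ∀ j, Nat.Coprime (a j) (Q j).natDegree)
    (hne : ∀ i j, i ≠ j → a i = a j → ∀ c : ℤ,
      Polynomial.C (α j) * Q i - Polynomial.C (α i) * Q j ≠ Polynomial.C c) :
    ∃ c : ℝ, 0 < c ∧ ∃ Z₀ : ℝ, ∀ Z : ℕ, Z₀ ≤ Z → ∀ M N : ℤ, ∃ x y : ℤ,
      (M < x ∧ x ≤ M + Z) ∧ (N < y ∧ y ≤ N + Z) ∧ ∀ j, ∀ n : ℤ,
        |(n : ℝ) - (α j * y ^ a j + (Q j).eval x : ℤ)| ≤ c * ff Z →
          ∃ p : ℕ, p.Prime ∧ (p : ℝ) ≤ (Z : ℝ) ^ (1 / 10 : ℝ) ∧ (p : ℤ) ∣ n := by
  classical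
  choose K hK0 hK using fun j => count_bound (a j) (Q j).natDegree (ha j)
  have hpair : ∀ i j : Fin m, ∃ B D : ℕ, i ≠ j → ∀ p : ℕ, ∀ _ : Fact p.Prime, B < p → ∀ r s : ZMod p,
      (univ.filter (fun z : ZMod p × ZMod p =>
        (α i : ZMod p) * z.2 ^ a i + ((Q i).map (Int.castRingHom (ZMod p))).eval z.1 = r ∧
        (α j : ZMod p) * z.2 ^ a j + ((Q j).map (Int.castRingHom (ZMod p))).eval z.1 = s)).card ≤ D := by
    intro i j
    by_cases hij : i = j
    · exact ⟨0, 0, fun h => absurd hij h⟩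
    · obtain ⟨B, D, h⟩ := pair_bound (α i) (α j) (a i) (a j) (Q i) (Q j) (hα i) (hα j) (ha i) (ha j)
        (hQ i) (hQ j) (hc i) (hc j) (hne i j hij)
      exact ⟨B, D, fun _ => h⟩
  choose B2 D hBD using hpair
  obtain ⟨B₀, hB₀⟩ : ∃ B₀ : ℕ, B₀ = ∑ j, ((α j).natAbs + (Q j).leadingCoeff.natAbs) +
    ∑ i, ∑ j, B2 i j := ⟨_, rfl⟩
  obtain ⟨C₀, hC₀⟩ : ∃ C₀ : ℝ, C₀ = ∑ j, K j + ((∑ i, ∑ j, D i j : ℕ) : ℝ) := ⟨_, rfl⟩
  have b1 : ∀ j, (α j).natAbs + (Q j).leadingCoeff.natAbs ≤ B₀ := fun j =>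
    (Finset.single_le_sum (f := fun j => (α j).natAbs + (Q j).leadingCoeff.natAbs)
      (fun _ _ => Nat.zero_le _) (mem_univ j)).trans (by omega)
  have b2 : ∀ i j, B2 i j ≤ B₀ := fun i j =>
    ((Finset.single_le_sum (f := fun j => B2 i j) (fun _ _ => Nat.zero_le _) (mem_univ j)).trans
      (Finset.single_le_sum (f := fun i => ∑ j, B2 i j) (fun _ _ => Nat.zero_le _)
        (mem_univ i))).trans (by omega)
  have b3 : ∀ j, K j ≤ C₀ := by
    intro j
    have h1 : K j ≤ ∑ j, K j := Finset.single_le_sum (f := K) (fun j _ => hK0 j) (mem_univ j)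
    have h2 : (0 : ℝ) ≤ ((∑ i, ∑ j, D i j : ℕ) : ℝ) := Nat.cast_nonneg _
    rw [hC₀]
    linarith
  have b4 : ∀ i j, (D i j : ℝ) ≤ C₀ := by
    intro i j
    have h1 : D i j ≤ ∑ i, ∑ j, D i j :=
      (Finset.single_le_sum (f := fun j => D i j) (fun _ _ => Nat.zero_le _) (mem_univ j)).trans
      (Finset.single_le_sum (f := fun i => ∑ j, D i j) (fun _ _ => Nat.zero_le _) (mem_univ i))
    have h2 : (D i j : ℝ) ≤ ((∑ i, ∑ j, D i j : ℕ) : ℝ) := by exact_mod_cast h1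
    have h3 : 0 ≤ ∑ j, K j := Finset.sum_nonneg fun j _ => hK0 j
    rw [hC₀]
    linarith
  have hC0 : 0 ≤ C₀ := by
    rw [hC₀]
    exact add_nonneg (Finset.sum_nonneg fun j _ => hK0 j) (Nat.cast_nonneg _)
  obtain ⟨c, hc0, Z₀, h⟩ := Pool.Agent.Y837.SV.crit3 2 (fun j : Fin m => FF (α j) (a j) (Q j))
    (by
      intro j c hjc
      have h1 : MvPolynomial.eval (fun _ => (0 : ℤ)) (FF (α j) (a j) (Q j)) = c := by
        rw [hjc, MvPolynomial.eval_C]
      have h2 : MvPolynomial.eval (fun i : Fin 2 => if i = 1 then (1 : ℤ) else 0)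
          (FF (α j) (a j) (Q j)) = c := by
        rw [hjc, MvPolynomial.eval_C]
      rw [eval_FF] at h1 h2
      rw [zero_pow (ha j)] at h1
      simp only [if_true, one_pow, Fin.zero_eq_one_iff, OfNat.ofNat_ne_one, if_false, mul_one,
        mul_zero, zero_add] at h1 h2
      exact hα j (by linarith))
    (fun _ => ∅) (by intro j r hr; simp at hr) B₀ C₀ (1 / 2) (by norm_num)
    (by
      intro p hp hBp j r _
      have hF : Fact p.Prime := ⟨hp⟩
      have hb := b1 j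
      have hα0 : (α j : ZMod p) ≠ 0 := cast_ne hp (α j) (hα j) (by omega)
      obtain ⟨P, hP⟩ : ∃ P, P = (Q j).map (Int.castRingHom (ZMod p)) := ⟨_, rfl⟩
      have hd : P.natDegree = (Q j).natDegree := by
        rw [hP]; exact natDegree_red hp (Q j) (by omega) (hQ j)
      obtain ⟨g, hg⟩ : ∃ g, g = Polynomial.C ((α j : ZMod p)⁻¹) * (Polynomial.C r - P) := ⟨_, rfl⟩
      have hgd : g.natDegree = (Q j).natDegree := by
        rw [hg, Polynomial.natDegree_C_mul (inv_ne_zero hα0), natDegree_C_sub', hd]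
      have h1 := hK j p hF g hgd.le (by rw [hgd]; exact hQ j) (by rw [hgd]; exact hc j)
      have h2 : Nat.card {x : Fin 2 → ZMod p // MvPolynomial.aeval x (FF (α j) (a j) (Q j)) = r} =
          (univ.filter (fun z : ZMod p × ZMod p => z.2 ^ a j = g.eval z.1)).card := by
        rw [← Fintype.card_subtype, ← Nat.card_eq_fintype_card]
        refine Nat.card_congr (Equiv.subtypeEquiv (finTwoArrowEquiv (ZMod p)) fun x => ?_)
        rw [aeval_FF, ← hP, hg]
        simp only [finTwoArrowEquiv_apply, Polynomial.eval_mul, Polynomial.eval_C, Polynomial.eval_sub]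
        rw [eq_inv_mul_iff_mul_eq₀ hα0, eq_sub_iff_add_eq]
        exact Iff.rfl
      rw [h2]
      have hp0 : (0 : ℝ) < p := by exact_mod_cast hp.pos
      have hs : 0 < Real.sqrt p := Real.sqrt_pos.2 hp0
      have hss : Real.sqrt p * Real.sqrt p = p := Real.mul_self_sqrt hp0.le
      have e1 : (p : ℝ) ^ (-(1 / 2) : ℝ) = (Real.sqrt p)⁻¹ := by
        rw [Real.rpow_neg hp0.le, Real.sqrt_eq_rpow]
      have e2 : (p : ℝ) ^ 2 * (Real.sqrt p)⁻¹ = p * Real.sqrt p := by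
        rw [← div_eq_mul_inv, div_eq_iff hs.ne']
        nlinarith
      rw [e1, mul_assoc, e2]
      have e3 : (p : ℝ) * ((univ.filter (fun z : ZMod p × ZMod p => z.2 ^ a j = g.eval z.1)).card : ℝ) -
          (p : ℝ) ^ 2 = p * (((univ.filter (fun z : ZMod p × ZMod p => z.2 ^ a j = g.eval z.1)).card : ℝ) - p) := by
        ring
      rw [e3, abs_mul, abs_of_pos hp0]
      calc (p : ℝ) * |((univ.filter (fun z : ZMod p × ZMod p => z.2 ^ a j = g.eval z.1)).card : ℝ) - p|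
          ≤ p * (K j * Real.sqrt p) := mul_le_mul_of_nonneg_left h1 hp0.le
        _ ≤ p * (C₀ * Real.sqrt p) :=
            mul_le_mul_of_nonneg_left (mul_le_mul_of_nonneg_right (b3 j) hs.le) hp0.le
        _ = C₀ * (p * Real.sqrt p) := by ring)
    (by
      intro p hp hBp i j hij r s _ _
      have hF : Fact p.Prime := ⟨hp⟩
      have h1 := hBD i j hij p hF (lt_of_le_of_lt (b2 i j) hBp) r s
      have h2 : Nat.card {x : Fin 2 → ZMod p // MvPolynomial.aeval x (FF (α i) (a i) (Q i)) = r ∧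
          MvPolynomial.aeval x (FF (α j) (a j) (Q j)) = s} =
          (univ.filter (fun z : ZMod p × ZMod p =>
            (α i : ZMod p) * z.2 ^ a i + ((Q i).map (Int.castRingHom (ZMod p))).eval z.1 = r ∧
            (α j : ZMod p) * z.2 ^ a j + ((Q j).map (Int.castRingHom (ZMod p))).eval z.1 = s)).card := by
        rw [← Fintype.card_subtype, ← Nat.card_eq_fintype_card]
        refine Nat.card_congr (Equiv.subtypeEquiv (finTwoArrowEquiv (ZMod p)) fun x => ?_)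
        rw [aeval_FF, aeval_FF]
        exact Iff.rfl
      rw [h2]
      have h3 : ((univ.filter (fun z : ZMod p × ZMod p =>
            (α i : ZMod p) * z.2 ^ a i + ((Q i).map (Int.castRingHom (ZMod p))).eval z.1 = r ∧
            (α j : ZMod p) * z.2 ^ a j + ((Q j).map (Int.castRingHom (ZMod p))).eval z.1 = s)).card : ℝ) ≤
          D i j := by exact_mod_cast h1
      rw [mul_comm]
      exact mul_le_mul_of_nonneg_right (h3.trans (b4 i j)) (by positivity))
  refine ⟨c, hc0, Z₀, fun Z hZ M N => ?_⟩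
  obtain ⟨x, hx1, hx2⟩ := h Z hZ ![M, N]
  refine ⟨x 0, x 1, ?_, ?_, fun j n hn => hx2 j n ?_⟩
  · have := hx1 0
    simpa using this
  · have := hx1 1
    simpa using this
  · rw [eval_FF]
    exact hn

end Pool.Agent.H260.SE
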